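import Pool.Agent.J6H9.AC.Ari

/-!
# The arithmetic of the exponents for any number of pairwise coprime moduli
-/

set_option autoImplicit false

namespace Pool.Agent.J6H9.AB

open Finset Pool.Agent.W816.HI.AT

theorem mul_div_prod {r : ℕ} (R : Fin r → ℕ) (i : Fin r) :
    (∏ k, R k) / R i * R i = ∏ k, R k :=
  Nat.div_mul_cancel (dvd_prod_of_mem R (mem_univ i))

theorem arithG {r n c F D : ℕ} (R : Fin r → ℕ) (hR : ∀ i, 0 < R i)
    (hRc : Pairwise (Function.onFun Nat.Coprime R)) (hc : c.Prime) (hcM : (∏ i, R i) ∣ c - 1)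
    (hF : 0 < F) (b : Fin r → Fin n → ℕ)
    (hb : (D : ℚ) * ∑ i, (∑ l, (b i l : ℚ)) / ((R i).minFac : ℚ) < 1) (s : Fin r → ℕ) :
    ∃ j' : ℕ, j'.Coprime (∏ i, R i) ∧
      D * ∑ p : Fin r × Fin n, ∑ e ∈ range F,
        (j' * ((∏ k, R k) / R p.1 * (s p.1 * b p.1 p.2 % R p.1)) * c ^ e) % (∏ k, R k)
        < F * ∏ k, R k := by
  classical
  choose u d hu hd hus using fun i => single (R i) (s i) (hR i)
  obtain ⟨j', hj'⟩ := Nat.chineseRemainderOfFinset u R univ (fun i _ => (hR i).ne')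
    (fun i _ k _ hik => hRc hik)
  have hj : ∀ i, j' ≡ u i [MOD R i] := fun i => hj' i (mem_univ i)
  have hMpos : 0 < ∏ k, R k := prod_pos fun i _ => hR i
  have hcM1 : c ≡ 1 [MOD ∏ i, R i] := ((Nat.modEq_iff_dvd' hc.one_lt.le).2 hcM).symm
  have hcr : ∀ i e, c ^ e ≡ 1 [MOD R i] := by
    intro i e
    have h := (hcM1.of_dvd (dvd_prod_of_mem R (mem_univ i))).pow e
    rwa [one_pow] at h
  refine ⟨j', Nat.Coprime.prod_right fun i _ => coprime_of_modEq (hj i) (hu i), ?_⟩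
  have t2 : ∀ i l e, (j' * ((∏ k, R k) / R i * (s i * b i l % R i)) * c ^ e) % (∏ k, R k) ≤
      (∏ k, R k) / R i * ((d i % R i) * b i l) := by
    intro i l e
    have h1 : j' * ((∏ k, R k) / R i * (s i * b i l % R i)) * c ^ e =
        (∏ k, R k) / R i * (j' * (s i * b i l % R i) * c ^ e) := by ring
    conv_lhs => rw [h1]; rw [← mul_div_prod R i]
    rw [Nat.mul_div_cancel _ (hR i), Nat.mul_mod_mul_left]
    apply Nat.mul_le_mul_left
    have h3 : j' * (s i * b i l % R i) * c ^ e ≡ (d i % R i) * b i l [MOD R i] := by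
      calc j' * (s i * b i l % R i) * c ^ e ≡ u i * (s i * b i l) * 1 [MOD R i] :=
            ((hj i).mul (Nat.mod_modEq _ _)).mul (hcr i e)
        _ = (u i * s i) * b i l := by ring
        _ ≡ d i * b i l [MOD R i] := (hus i).mul_right _
        _ ≡ (d i % R i) * b i l [MOD R i] := (Nat.mod_modEq _ _).symm.mul_right _
    rw [h3]
    exact Nat.mod_le _ _
  have h1 : D * ∑ p : Fin r × Fin n, ∑ e ∈ range F,
        (j' * ((∏ k, R k) / R p.1 * (s p.1 * b p.1 p.2 % R p.1)) * c ^ e) % (∏ k, R k)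
      ≤ F * (D * ∑ i, (∏ k, R k) / R i * ((d i % R i) * ∑ l, b i l)) := by
    have e1 : ∑ p : Fin r × Fin n, ∑ e ∈ range F,
        (j' * ((∏ k, R k) / R p.1 * (s p.1 * b p.1 p.2 % R p.1)) * c ^ e) % (∏ k, R k)
        ≤ ∑ p : Fin r × Fin n, F * ((∏ k, R k) / R p.1 * ((d p.1 % R p.1) * b p.1 p.2)) := by
      refine sum_le_sum fun p _ => ?_
      calc ∑ e ∈ range F, (j' * ((∏ k, R k) / R p.1 * (s p.1 * b p.1 p.2 % R p.1)) * c ^ e) %
            (∏ k, R k)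
          ≤ ∑ _e ∈ range F, (∏ k, R k) / R p.1 * ((d p.1 % R p.1) * b p.1 p.2) :=
            sum_le_sum fun e _ => t2 p.1 p.2 e
        _ = _ := by rw [sum_const, card_range, smul_eq_mul]
    refine (Nat.mul_le_mul_left D e1).trans (le_of_eq ?_)
    rw [← mul_sum, Fintype.sum_prod_type]
    have e2 : ∀ i : Fin r, ∑ l, (∏ k, R k) / R i * ((d i % R i) * b i l) =
        (∏ k, R k) / R i * ((d i % R i) * ∑ l, b i l) := by
      intro i
      rw [mul_sum, mul_sum]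
    rw [sum_congr rfl fun i _ => e2 i]
    ring
  refine lt_of_le_of_lt h1 (Nat.mul_lt_mul_of_pos_left ?_ hF)
  -- the rational inequality
  have h2 : ∀ i, (((∏ k, R k) / R i * ((d i % R i) * ∑ l, b i l) : ℕ) : ℚ) ≤
      ((∏ k, R k : ℕ) : ℚ) * ((∑ l, (b i l : ℚ)) / ((R i).minFac : ℚ)) := by
    intro i
    have hm : 0 < (R i).minFac := Nat.minFac_pos _
    have hm' : (0 : ℚ) < ((R i).minFac : ℚ) := by exact_mod_cast hm
    have h3 := (divisor_mod (R i) (d i) (R i).minFac (hR i) (hd i)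
      (fun l hl hln => Nat.minFac_le_of_dvd hl.two_le hln)).1
    rw [← mul_div_assoc, le_div_iff₀ hm']
    have h4 : (∏ k, R k) / R i * ((d i % R i) * ∑ l, b i l) * (R i).minFac ≤
        (∏ k, R k) * ∑ l, b i l := by
      calc (∏ k, R k) / R i * ((d i % R i) * ∑ l, b i l) * (R i).minFac
          = (∏ k, R k) / R i * ((R i).minFac * (d i % R i)) * ∑ l, b i l := by ring
        _ ≤ (∏ k, R k) / R i * R i * ∑ l, b i l :=
            Nat.mul_le_mul_right _ (Nat.mul_le_mul_left _ h3)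
        _ = _ := by rw [mul_div_prod]
    have h5 : (((∏ k, R k) / R i * ((d i % R i) * ∑ l, b i l) * (R i).minFac : ℕ) : ℚ) ≤
        (((∏ k, R k) * ∑ l, b i l : ℕ) : ℚ) := by exact_mod_cast h4
    rw [Nat.cast_mul] at h5
    refine h5.trans (le_of_eq ?_)
    push_cast
    ring
  have hM' : (0 : ℚ) < ((∏ k, R k : ℕ) : ℚ) := by exact_mod_cast hMpos
  have h6 : ((D * ∑ i, (∏ k, R k) / R i * ((d i % R i) * ∑ l, b i l) : ℕ) : ℚ) <
      ((∏ k, R k : ℕ) : ℚ) := by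
    rw [Nat.cast_mul, Nat.cast_sum]
    calc (D : ℚ) * ∑ i, (((∏ k, R k) / R i * ((d i % R i) * ∑ l, b i l) : ℕ) : ℚ)
        ≤ (D : ℚ) * ∑ i, ((∏ k, R k : ℕ) : ℚ) * ((∑ l, (b i l : ℚ)) / ((R i).minFac : ℚ)) :=
          mul_le_mul_of_nonneg_left (sum_le_sum fun i _ => h2 i) (Nat.cast_nonneg D)
      _ = ((∏ k, R k : ℕ) : ℚ) * ((D : ℚ) * ∑ i, (∑ l, (b i l : ℚ)) / ((R i).minFac : ℚ)) := by
          rw [← mul_sum]
          ring
      _ < ((∏ k, R k : ℕ) : ℚ) * 1 := mul_lt_mul_of_pos_left hb hM'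
      _ = _ := mul_one _
  exact_mod_cast h6

/-- the exponents are prime to the moduli -/
theorem copG {r n D : ℕ} (hD : 1 ≤ D) (R : Fin r → ℕ) (b : Fin r → Fin n → ℕ)
    (hb : (D : ℚ) * ∑ i, (∑ l, (b i l : ℚ)) / ((R i).minFac : ℚ) < 1) (i : Fin r) (l : Fin n) :
    b i l = 0 ∨ (b i l).Coprime (R i) := by
  rcases Nat.eq_zero_or_pos (b i l) with h0 | h0
  · exact Or.inl h0
  · refine Or.inr (Pool.Agent.J6H9.AC.cop_of_lt (P := (R i).minFac)
      (fun p hp hpR => Nat.minFac_le_of_dvd hp.two_le hpR) h0 ?_)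
    have hm : 0 < (R i).minFac := Nat.minFac_pos _
    have hm' : (0 : ℚ) < ((R i).minFac : ℚ) := by exact_mod_cast hm
    have hD' : (1 : ℚ) ≤ (D : ℚ) := by exact_mod_cast hD
    have hnn : ∀ k, 0 ≤ (∑ l, (b k l : ℚ)) / ((R k).minFac : ℚ) := fun k =>
      div_nonneg (sum_nonneg fun l _ => Nat.cast_nonneg _) (Nat.cast_nonneg _)
    have h1 : (∑ l, (b i l : ℚ)) / ((R i).minFac : ℚ) < 1 := by
      have h2 : (∑ l, (b i l : ℚ)) / ((R i).minFac : ℚ) ≤
          ∑ k, (∑ l, (b k l : ℚ)) / ((R k).minFac : ℚ) :=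
        single_le_sum (f := fun k => (∑ l, (b k l : ℚ)) / ((R k).minFac : ℚ))
          (fun k _ => hnn k) (mem_univ i)
      have h3 : ∑ k, (∑ l, (b k l : ℚ)) / ((R k).minFac : ℚ) ≤
          (D : ℚ) * ∑ k, (∑ l, (b k l : ℚ)) / ((R k).minFac : ℚ) :=
        le_mul_of_one_le_left (sum_nonneg fun k _ => hnn k) hD'
      linarith
    rw [div_lt_one hm'] at h1
    have h2 : (b i l : ℚ) ≤ ∑ l, (b i l : ℚ) :=
      single_le_sum (f := fun l => (b i l : ℚ)) (fun l _ => Nat.cast_nonneg _) (mem_univ l)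
    have h3 : (b i l : ℚ) < ((R i).minFac : ℚ) := lt_of_le_of_lt h2 h1
    exact_mod_cast h3

end Pool.Agent.J6H9.AB
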