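import Pool.Agent.J6H9.AB.Pts
import Pool.Agent.W551.HD.GN
import Pool.Agent.W108.HD.ONE
import Pool.Agent.W340.HD.IN
import Pool.Agent.W528.HC.MU
import Pool.Agent.W924.HC.PR

/-!
# The zeta functions of abelian coverings of affine space
-/

set_option autoImplicit false

namespace Pool.Agent.J6H9.AB

open Finset Polynomial Pool.Agent.W528.HA Pool.Agent.W528.HC Pool.Agent.W528.HD Pool.Agent.W528.HG
  Pool.Agent.J6H9.AC Pool.Agent.J6H9.AS

/-- Divisors with the same power sums are equal (outside zero). -/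
theorem uniq {E : Type} [Field E] [CharZero E] (V : E →₀ ℤ)
    (h : ∀ e : ℕ, 1 ≤ e → V.sum (fun α m => (m : E) * α ^ e) = 0) (α : E) (hα : α ≠ 0) : V α = 0 := by
  classical
  have hli : LinearIndependent E (fun β : E => ((powersHom E β : Multiplicative ℕ →* E) :
      Multiplicative ℕ → E)) := by
    refine (linearIndependent_monoidHom (Multiplicative ℕ) E).comp (fun β => powersHom E β) ?_
    intro β β' hβ
    have h1 := congrArg (fun f : Multiplicative ℕ →* E => f (Multiplicative.ofAdd 1)) hβ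
    simpa using h1
  rw [linearIndependent_iff'] at hli
  have h1 := hli V.support (fun β => (V β : E) * β) (by
    funext e
    have h2 := h (e.toAdd + 1) (by omega)
    rw [Finsupp.sum] at h2
    simp only [Finset.sum_apply, Pi.smul_apply, smul_eq_mul, powersHom_apply, Pi.zero_apply]
    rw [← h2]
    refine sum_congr rfl fun β _ => ?_
    rw [pow_succ']
    ring)
  by_contra hV
  have h2 := h1 α (Finsupp.mem_support_iff.mpr hV)
  rcases mul_eq_zero.mp h2 with h3 | h3
  · exact hV (by exact_mod_cast h3)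
  · exact hα h3

theorem finG {r c D d : ℕ} (R : Fin r → ℕ) (hR : ∀ i, 0 < R i)
    (hRc : Pairwise (Function.onFun Nat.Coprime R)) (hM : 2 ≤ ∏ i, R i)
    [Fact c.Prime] (hc : (∏ i, R i) ∣ c - 1)
    (κ : Type) [Field κ] [Fintype κ] [CharP κ c]
    {z : κ} (hz : IsPrimitiveRoot z (∏ i, R i)) {E : Type} [Field E] [CharZero E] [IsAlgClosed E]
    {μ ν : E} (hμ : IsPrimitiveRoot μ (∏ i, R i)) (hν : IsPrimitiveRoot ν c) {n w : ℕ} (hD : 1 ≤ D)
    (h : Fin n → κ[X]) (η : Fin n → Fin d → κ)
    (hh : ∀ l, (h l).natDegree ≤ D) (b : Fin r → Fin n → ℕ)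
    (hb : (D : ℚ) * ∑ i, (∑ l, (b i l : ℚ)) / ((R i).minFac : ℚ) < 1)
    (g : Fin w → κ[X]) (θ : Fin w → Fin d → κ) (hg : ∀ l, (g l).natDegree ≤ D)
    (A : (Fin r → ℕ) → (Fin w → Fin c) → E →₀ ℤ)
    (hA : ∀ s lam, (∀ i, s i < R i) → ∀ (L : Type) [Field L] [Fintype L] [Algebra κ L],
      (A s lam).sum (fun x m => (m : E) * x ^ Module.finrank κ L) =
        wS L E R c
          (fun l => AC.val ((h l).map (algebraMap κ L)) (fun o => algebraMap κ L (η l o))) b
          (fun l => AC.val ((g l).map (algebraMap κ L)) (fun o => algebraMap κ L (θ l o)))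
          (algebraMap κ L z) μ ν s lam) :
    (∀ (L : Type) [Field L] [Fintype L] [Algebra κ L],
      ∑ s ∈ Fintype.piFinset (fun i => range (R i)), ∑ lam : Fin w → Fin c,
          (A s lam).sum (fun x m => (m : E) * x ^ Module.finrank κ L)
        = (pts L R c
            (fun l => AC.val ((h l).map (algebraMap κ L)) (fun o => algebraMap κ L (η l o))) b
            (fun l => AC.val ((g l).map (algebraMap κ L)) (fun o => algebraMap κ L (θ l o))) : E)) ∧
    ∀ s lam, (∀ i, s i < R i) → ∀ (x : E) (m : ℕ), 0 < m →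
      x ^ m = ((Fintype.card κ : E) ^ d) ^ m → A s lam x = 0 := by
  classical
  have hPR : PR := Pool.Agent.W924.HC.PR.main
  have hMU : MU := mu_main
  have hAV : AV := Pool.Agent.W308.HG.AV.main
  have hGN : GN := Pool.Agent.W551.HD.GN.main
  have hONE : ONE := Pool.Agent.W108.HD.ONE.main Pool.Agent.W551.HD.GN.main
    Pool.Agent.W340.HD.IN.main Pool.Agent.W135.HB.SA.main
  have hcp : c.Prime := Fact.out
  obtain ⟨F, hF0, hF⟩ := FiniteField.card κ c
  have hF0' : 0 < (F : ℕ) := F.2
  refine ⟨?_, ?_⟩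
  · intro L _ _ _
    have : CharP L c := charP_of_injective_algebraMap (algebraMap κ L).injective c
    have hzL : IsPrimitiveRoot (algebraMap κ L z) (∏ i, R i) :=
      hz.map_of_injective (algebraMap κ L).injective
    rw [← ptsG hPR hMU L R c (algebraMap κ L z) hR hM hzL E μ ν hμ hν n w _ _ b _
      (copG hD R b hb)]
    refine sum_congr rfl fun s hs => sum_congr rfl fun lam _ => ?_
    exact hA s lam (fun i => mem_range.mp ((Fintype.mem_piFinset.mp hs) i)) L
  · intro s lam hs x m hm hx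
    obtain ⟨j', hj', hsum⟩ := arithG R hR hRc hcp hc hF0' b hb s
    have hcard : Fintype.card (Fin d) = d := Fintype.card_fin d
    refine m_nonvanishA hAV hGN hONE hM κ hF hz hμ hν hD (σ := Fin d)
      (fun p : Fin r × Fin n => η p.2) (fun p => h p.2) (fun p => hh p.2)
      (fun p => (∏ k, R k) / R p.1 * (s p.1 * b p.1 p.2 % R p.1)) ?_ hj'
      (fun k => ∑ i, ((lam i : ℕ) : κ) * θ i k)
      (∑ i, C ((lam i : ℕ) : κ) * g i) ?_
      hsum (A s lam) ?_ x m hm (by rw [hcard]; exact hx)
    · intro p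
      have h1 : 0 < (∏ k, R k) / R p.1 := by
        rcases Nat.eq_zero_or_pos ((∏ k, R k) / R p.1) with h2 | h2
        · have := mul_div_prod R p.1
          rw [h2, zero_mul] at this
          omega
        · exact h2
      calc (∏ k, R k) / R p.1 * (s p.1 * b p.1 p.2 % R p.1) < (∏ k, R k) / R p.1 * R p.1 :=
            Nat.mul_lt_mul_of_pos_left (Nat.mod_lt _ (hR p.1)) h1
        _ = _ := mul_div_prod R p.1
    · apply natDegree_sum_le_of_forall_le
      intro l _
      exact (natDegree_C_mul_le _ _).trans (hg l)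
    · intro L _ _ _
      rw [hA s lam hs L, wS_eq]
      congr 1
      · funext k
        simp
      · simp only [Polynomial.map_sum, Polynomial.map_mul, map_natCast, Polynomial.map_natCast]

/-- The zeta function of the covering has neither a zero nor a pole at `ζ q ^ (-d)`. -/
theorem zetaG {r c D d : ℕ} (R : Fin r → ℕ) (hR : ∀ i, 0 < R i)
    (hRc : Pairwise (Function.onFun Nat.Coprime R)) (hM : 2 ≤ ∏ i, R i)
    [Fact c.Prime] (hc : (∏ i, R i) ∣ c - 1)
    (κ : Type) [Field κ] [Fintype κ] [CharP κ c]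
    {z : κ} (hz : IsPrimitiveRoot z (∏ i, R i)) {E : Type} [Field E] [CharZero E] [IsAlgClosed E]
    {μ ν : E} (hμ : IsPrimitiveRoot μ (∏ i, R i)) (hν : IsPrimitiveRoot ν c) {n w : ℕ} (hD : 1 ≤ D)
    (h : Fin n → κ[X]) (η : Fin n → Fin d → κ)
    (hh : ∀ l, (h l).natDegree ≤ D) (b : Fin r → Fin n → ℕ)
    (hb : (D : ℚ) * ∑ i, (∑ l, (b i l : ℚ)) / ((R i).minFac : ℚ) < 1)
    (g : Fin w → κ[X]) (θ : Fin w → Fin d → κ) (hg : ∀ l, (g l).natDegree ≤ D)
    (A : (Fin r → ℕ) → (Fin w → Fin c) → E →₀ ℤ)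
    (hA : ∀ s lam, (∀ i, s i < R i) → ∀ (L : Type) [Field L] [Fintype L] [Algebra κ L],
      (A s lam).sum (fun x m => (m : E) * x ^ Module.finrank κ L) =
        wS L E R c
          (fun l => AC.val ((h l).map (algebraMap κ L)) (fun o => algebraMap κ L (η l o))) b
          (fun l => AC.val ((g l).map (algebraMap κ L)) (fun o => algebraMap κ L (θ l o)))
          (algebraMap κ L z) μ ν s lam)
    (Z : E →₀ ℤ) (hZ : ∀ (L : Type) [Field L] [Fintype L] [Algebra κ L],
      Z.sum (fun x m => (m : E) * x ^ Module.finrank κ L) = (pts L R c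
            (fun l => AC.val ((h l).map (algebraMap κ L)) (fun o => algebraMap κ L (η l o))) b
            (fun l => AC.val ((g l).map (algebraMap κ L)) (fun o => algebraMap κ L (θ l o))) : E))
    (x : E) (m : ℕ) (hm : 0 < m) (hx : x ^ m = ((Fintype.card κ : E) ^ d) ^ m) : Z x = 0 := by
  classical
  obtain ⟨h1, h2⟩ := finG R hR hRc hM hc κ hz hμ hν hD h η hh b hb g θ hg A hA
  have hext : ∀ e, 1 ≤ e → ∃ (L : Type) (_ : Field L) (_ : Fintype L) (_ : Algebra κ L),
      Module.finrank κ L = e := by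
    intro e he
    have : NeZero e := ⟨by omega⟩
    let _ : Fintype (FiniteField.Extension κ c e) := Fintype.ofFinite _
    exact ⟨FiniteField.Extension κ c e, inferInstance, inferInstance, inferInstance,
      FiniteField.finrank_extension κ c e⟩
  have hq : (Fintype.card κ : E) ≠ 0 := by exact_mod_cast Fintype.card_ne_zero
  have hx0 : x ≠ 0 := by
    rintro rfl
    rw [zero_pow hm.ne'] at hx
    exact pow_ne_zero m (pow_ne_zero _ hq) hx.symm
  set W : E →₀ ℤ := ∑ s ∈ Fintype.piFinset (fun i => range (R i)), ∑ lam : Fin w → Fin c, A s lam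
    with hW
  have hsum : ∀ (ι : Type) (S : Finset ι) (f : ι → E →₀ ℤ) (e : ℕ),
      (∑ i ∈ S, f i).sum (fun x m => (m : E) * x ^ e) =
        ∑ i ∈ S, (f i).sum (fun x m => (m : E) * x ^ e) := by
    intro ι S f e
    rw [Finsupp.sum_finsetSum_index]
    · intro a
      simp
    · intro a b₁ b₂
      push_cast
      ring
  have h3 : ∀ e : ℕ, 1 ≤ e → (Z - W).sum (fun x m => (m : E) * x ^ e) = 0 := by
    intro e he
    obtain ⟨L, _, _, _, hL⟩ := hext e he
    rw [Finsupp.sum_sub_index (by
      intro a b₁ b₂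
      push_cast
      ring)]
    have h4 := hZ L
    have h5 := h1 L
    rw [hL] at h4 h5
    rw [h4, ← h5, hW, hsum, sub_eq_zero]
    refine sum_congr rfl fun s _ => ?_
    rw [hsum]
  have h4 := uniq (Z - W) h3 x hx0
  rw [Finsupp.sub_apply] at h4
  have h5 : W x = 0 := by
    rw [hW, Finsupp.finsetSum_apply]
    refine sum_eq_zero fun s hs => ?_
    rw [Finsupp.finsetSum_apply]
    refine sum_eq_zero fun lam _ => ?_
    exact h2 s lam (fun i => mem_range.mp ((Fintype.mem_piFinset.mp hs) i)) x m hm hx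
  omega

end Pool.Agent.J6H9.AB
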