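import Pool.Agent.J6H9.AS.Pts
import Pool.Agent.J6H9.AB.Ari

/-!
# The number of the points of abelian coverings of affine space
-/

set_option autoImplicit false

namespace Pool.Agent.J6H9.AB

open Finset Polynomial Pool.Agent.W528.HA Pool.Agent.W528.HC Pool.Agent.W125.HC.PC Pool.Agent.W528.HG
  Pool.Agent.J6H9.AC Pool.Agent.W410.HG.PS Pool.Agent.J6H9.AS

/-- The sum over `t` of the value at `∏ h_l(t) ^ ((M / R_i) (s_i b_{il} mod R_i))`, `M = ∏ R_i`, of the
character of order `M` of `L` belonging to `z ↦ μ`, times `ν ^ Tr(∑ λ_o g_o(t))`. -/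
noncomputable def wS (L : Type) [Field L] [Fintype L] (A : Type) [CommRing A] {r : ℕ} (R : Fin r → ℕ)
    (c : ℕ) {T : Type} [Fintype T] {n w : ℕ} (h : Fin n → T → L) (b : Fin r → Fin n → ℕ)
    (g : Fin w → T → L) (z : L) (μ ν : A) (s : Fin r → ℕ) (lam : Fin w → Fin c) : A :=
  ∑ t : T, kv (∏ i, R i) z μ
    ((∏ i, ∏ l, (h l t) ^ ((∏ k, R k) / R i * (s i * b i l % R i))) ^
      ((Fintype.card L - 1) / (∏ i, R i))) *
    av L A c ν (∑ o, ((lam o : ℕ) : L) * g o t)

/-- The number of the points `(t, u, w)` with `u_i ^ R_i = ∏ h_l(t) ^ b_{il}` and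
`w_o ^ c - w_o = g_o(t)`. -/
noncomputable def pts (L : Type) [Field L] {r : ℕ} (R : Fin r → ℕ) (c : ℕ) {T : Type} {n w : ℕ}
    (h : Fin n → T → L) (b : Fin r → Fin n → ℕ) (g : Fin w → T → L) : ℕ :=
  Set.ncard {v : T × (Fin r → L) × (Fin w → L) |
    (∀ i, v.2.1 i ^ R i = ∏ l, (h l v.1) ^ b i l) ∧ ∀ o, v.2.2 o ^ c - v.2.2 o = g o v.1}

theorem kv_prod (hMU : MU) {L : Type} [Field L] [Fintype L] {M : ℕ} (hM : 2 ≤ M) {z : L}
    (hz : IsPrimitiveRoot z M) {E : Type} [CommRing E] {μ : E} (hμ : μ ^ M = 1) {ι : Type}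
    (S : Finset ι) (f : ι → L) :
    kv M z μ ((∏ i ∈ S, f i) ^ ((Fintype.card L - 1) / M)) =
      ∏ i ∈ S, kv M z μ (f i ^ ((Fintype.card L - 1) / M)) := by
  classical
  induction S using Finset.induction_on with
  | empty => rw [prod_empty, prod_empty, one_pow, kv_one (by omega) hz]
  | insert i S hi ih =>
    rw [prod_insert hi, prod_insert hi, hMU L M z hM hz E μ hμ, ih]

theorem pts_eq {L : Type} [Field L] [Fintype L] {T : Type} [Fintype T] [DecidableEq L] {r : ℕ}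
    (R : Fin r → ℕ) {c n w : ℕ} (γ : Fin n → T → L) (b : Fin r → Fin n → ℕ) (g : Fin w → T → L)
    {E : Type} [Field E] :
    ((pts L R c γ b g : ℕ) : E) = ∑ t : T,
      (∏ i, ((Set.ncard {u : L | u ^ R i = ∏ l, (γ l t) ^ b i l} : ℕ) : E)) *
        ∏ o, ((univ.filter (fun w : L => w ^ c - w = g o t)).card : E) := by
  classical
  unfold pts
  have h : {v : T × (Fin r → L) × (Fin w → L) | (∀ i, v.2.1 i ^ R i = ∏ l, (γ l v.1) ^ b i l) ∧
      ∀ o, v.2.2 o ^ c - v.2.2 o = g o v.1} =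
      ((univ.filter (fun v : T × (Fin r → L) × (Fin w → L) =>
        (∀ i, v.2.1 i ^ R i = ∏ l, (γ l v.1) ^ b i l) ∧
        ∀ o, v.2.2 o ^ c - v.2.2 o = g o v.1) : Finset (T × (Fin r → L) × (Fin w → L))) :
        Set (T × (Fin r → L) × (Fin w → L))) := by
    ext y; simp
  rw [h, Set.ncard_coe_finset, card_filter, Fintype.sum_prod_type]
  push_cast
  refine sum_congr rfl fun t _ => ?_
  have h1 : (∏ i, ((Set.ncard {u : L | u ^ R i = ∏ l, (γ l t) ^ b i l} : ℕ) : E)) =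
      ∑ u : Fin r → L, if ∀ i, u i ^ R i = ∏ l, (γ l t) ^ b i l then (1 : E) else 0 := by
    have h2 : (univ.filter (fun u : Fin r → L => ∀ i, u i ^ R i = ∏ l, (γ l t) ^ b i l)) =
        Fintype.piFinset (fun i => univ.filter (fun u : L => u ^ R i = ∏ l, (γ l t) ^ b i l)) := by
      ext u
      simp [Fintype.mem_piFinset]
    rw [← sum_filter, sum_const, h2, Fintype.card_piFinset, nsmul_eq_mul, mul_one, Nat.cast_prod]
    refine prod_congr rfl fun i _ => ?_
    rw [← Set.ncard_coe_finset]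
    congr 2
    ext u
    simp
  rw [h1, Fintype.sum_prod_type, sum_mul]
  refine sum_congr rfl fun u _ => ?_
  rw [← card_as L E c w (fun o => g o t), mul_sum]
  refine sum_congr rfl fun y _ => ?_
  by_cases h3 : ∀ i, u i ^ R i = ∏ l, (γ l t) ^ b i l
  · by_cases h2 : ∀ o, y o ^ c - y o = g o t
    · rw [if_pos ⟨h3, h2⟩, if_pos h3, if_pos h2, mul_one]
    · rw [if_neg (fun hh => h2 hh.2), if_neg h2, mul_zero]
  · rw [if_neg (fun hh => h3 hh.1), if_neg h3, zero_mul]

theorem ptsG (hPR : PR) (hMU : MU) (L : Type) [Field L] [Fintype L] {r : ℕ} (R : Fin r → ℕ) (c : ℕ)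
    [Fact c.Prime] [CharP L c] (z : L) (hR : ∀ i, 0 < R i) (hM : 2 ≤ ∏ i, R i)
    (hz : IsPrimitiveRoot z (∏ i, R i)) (E : Type) [Field E] [CharZero E] (μ ν : E)
    (hμ : IsPrimitiveRoot μ (∏ i, R i)) (hν : IsPrimitiveRoot ν c) (n w : ℕ) (T : Type) [Fintype T]
    (γ : Fin n → T → L) (b : Fin r → Fin n → ℕ) (g : Fin w → T → L)
    (hb : ∀ i l, b i l = 0 ∨ (b i l).Coprime (R i)) :
    ∑ s ∈ Fintype.piFinset (fun i => range (R i)), ∑ lam : Fin w → Fin c,
      wS L E R c γ b g z μ ν s lam = (pts L R c γ b g : E) := by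
  classical
  set M := ∏ i, R i with hMdef
  have hM0 : 0 < M := by omega
  have hMi : ∀ i, R i * (M / R i) = M := fun i => by
    rw [mul_comm]
    exact mul_div_prod R i
  have hMi0 : ∀ i, 0 < M / R i := by
    intro i
    rcases Nat.eq_zero_or_pos (M / R i) with h | h
    · have := hMi i
      rw [h, mul_zero] at this
      omega
    · exact h
  have hzi : ∀ i, IsPrimitiveRoot z (R i * (M / R i)) := fun i => by rw [hMi i]; exact hz
  have h0 : ∀ (s : Fin r → ℕ), (∀ i, s i < R i) → ∀ (t : T) (i : Fin r),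
      (∏ l, (γ l t) ^ (M / R i * (s i * b i l % R i))) ^ ((Fintype.card L - 1) / M) =
      ((∏ l, (γ l t) ^ b i l) ^ (M / R i * s i)) ^ ((Fintype.card L - 1) / M) := by
    intro s hs t i
    rw [← prod_pow, ← prod_pow, ← prod_pow]
    refine prod_congr rfl fun l _ => ?_
    have h1 := red_exp (hR i) (hMi0 i) (hzi i) (hb i l) (hs i) (γ l t)
    rw [hMi i] at h1
    exact h1
  have h3 : ∀ (i : Fin r) (v : L), ∑ s ∈ range (R i),
      kv M z μ ((v ^ (M / R i * s)) ^ ((Fintype.card L - 1) / M)) =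
      ((Set.ncard {y : L | y ^ R i = v} : ℕ) : E) := by
    intro i v
    have := hPR L M (R i) (M / R i) z (hMi i).symm hz (hR i) (hMi0 i) E μ hμ v
    rw [this, range_eq_Ico, sum_eq_sum_Ico_succ_bot (hR i)]
    congr 1
    rw [mul_zero, pow_zero, one_pow, kv_one hM0 hz]
  have hlam : ∀ t : T, ∑ lam : Fin w → Fin c, av L E c ν (∑ o, ((lam o : ℕ) : L) * g o t) =
      ∏ o, ((univ.filter (fun w : L => w ^ c - w = g o t)).card : E) := fun t =>
    as_sum L E c ν hν w (fun o => g o t)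
  rw [pts_eq]
  have e1 : ∀ s ∈ Fintype.piFinset (fun i => range (R i)), ∑ lam : Fin w → Fin c,
      wS L E R c γ b g z μ ν s lam = ∑ t : T, (∏ i, kv M z μ
        (((∏ l, (γ l t) ^ b i l) ^ (M / R i * s i)) ^ ((Fintype.card L - 1) / M))) *
        ∏ o, ((univ.filter (fun w : L => w ^ c - w = g o t)).card : E) := by
    intro s hs
    have hs' : ∀ i, s i < R i := fun i => mem_range.mp ((Fintype.mem_piFinset.mp hs) i)
    unfold wS
    rw [sum_comm]
    refine sum_congr rfl fun t _ => ?_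
    rw [← mul_sum, hlam t]
    congr 1
    rw [← hMdef, kv_prod hMU hM hz hμ.pow_eq_one]
    exact prod_congr rfl fun i _ => by rw [h0 s hs' t i]
  rw [sum_congr rfl e1, sum_comm]
  refine sum_congr rfl fun t _ => ?_
  rw [← sum_mul]
  congr 1
  have h4 : ∀ i, ((Set.ncard {u : L | u ^ R i = ∏ l, (γ l t) ^ b i l} : ℕ) : E) =
      ∑ s ∈ range (R i), kv M z μ
        (((∏ l, (γ l t) ^ b i l) ^ (M / R i * s)) ^ ((Fintype.card L - 1) / M)) := fun i =>
    (h3 i _).symm
  rw [prod_congr rfl fun i _ => h4 i, prod_univ_sum]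

theorem wS_eq {L : Type} [Field L] [Fintype L] {A : Type} [CommRing A] {r : ℕ} (R : Fin r → ℕ)
    (c : ℕ) {d n w : ℕ} (h : Fin n → L[X])
    (η : Fin n → Fin d → L) (b : Fin r → Fin n → ℕ) (g : Fin w → L[X]) (θ : Fin w → Fin d → L) (z : L)
    (μ ν : A) (s : Fin r → ℕ) (lam : Fin w → Fin c) :
    wS L A R c (fun l => AC.val (h l) (η l)) b (fun o => AC.val (g o) (θ o)) z μ ν s lam
      = mSumA L A (σ := Fin d) (∏ i, R i) c (fun p : Fin r × Fin n => η p.2) (fun p => h p.2)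
        (fun p => (∏ k, R k) / R p.1 * (s p.1 * b p.1 p.2 % R p.1))
        (fun k => ∑ i, ((lam i : ℕ) : L) * θ i k)
        (∑ i, C ((lam i : ℕ) : L) * g i) z μ ν := by
  classical
  unfold wS mSumA
  rw [sum_comm]
  have h1 : ∀ l : Fin n, ∀ (t : L) (v : Fin d → L), frm (η l) (h l) v t =
      val (h l) (η l) (Fin.cons t v) := by
    intro l t v
    rw [frm, Pool.Agent.J6H9.AC.val]
    simp only [Fin.cons_zero, Fin.cons_succ]
    ring
  rw [← Fintype.sum_prod_type' (f := fun (t : L) (v : Fin d → L) =>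
    kv (∏ i, R i) z μ ((∏ p : Fin r × Fin n, frm (η p.2) (h p.2) v t ^
      ((∏ k, R k) / R p.1 * (s p.1 * b p.1 p.2 % R p.1))) ^
      ((Fintype.card L - 1) / ∏ i, R i)) *
      av L A c ν (frm (fun k => ∑ i, ((lam i : ℕ) : L) * θ i k) (∑ i, C ((lam i : ℕ) : L) * g i) v t))]
  refine (Fintype.sum_equiv (Fin.consEquiv (fun _ : Fin (d + 1) => L)) _ _ ?_).symm
  rintro ⟨t, v⟩
  have hc : (Fin.consEquiv (fun _ : Fin (d + 1) => L)) (t, v) = Fin.cons t v := rfl
  rw [hc]
  congr 1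
  · congr 2
    rw [Fintype.prod_prod_type]
    exact prod_congr rfl fun i _ => prod_congr rfl fun l _ => by simp only [h1]
  · congr 1
    rw [frm, eval_finsetSum]
    simp only [Pool.Agent.J6H9.AC.val, Fin.cons_zero, Fin.cons_succ, eval_mul, eval_C, mul_add,
      sum_add_distrib]
    rw [add_comm]
    congr 1
    simp only [sum_mul, mul_sum]
    rw [sum_comm]
    exact sum_congr rfl fun i _ => sum_congr rfl fun k _ => by ring

end Pool.Agent.J6H9.AB
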